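import Pool.Agent.H37.CTT.Stmts

/-!
# Row `SC12` of the board `ctt`
-/

set_option autoImplicit false

namespace Pool.CND

open Finset

theorem sc12_ge_pow {k L : Type} [Field k] [Field L] [Algebra k L] (P : Place k L) {x : L} {m : ℤ}
    (h : P.Ge x m) (n : ℕ) : P.Ge (x ^ n) (n * m) := by
  induction n with
  | zero =>
    rw [pow_zero]
    exact Or.inr (by rw [P.ord_one]; simp)
  | succ n ih =>
    rw [pow_succ]
    refine P.ge_mono (P.ge_mul ih h) (le_of_eq ?_)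
    push_cast
    ring

theorem sc12_id {L : Type} [Field L] (q : ℕ)
    (hsub : ∀ x y : L, (x - y) ^ q = x ^ q - y ^ q) (t x v A S : L)
    (h0 : x ^ q ^ 4 - t ^ q * x ^ q ^ 3 - 0 * x ^ q ^ 2 - t * x ^ q + x = 0)
    (h1 : (v * x) ^ q ^ 4 - t ^ q * (v * x) ^ q ^ 3 - 0 * (v * x) ^ q ^ 2 - t * (v * x) ^ q
      + (v * x) = 0)
    (hA : A = v ^ q - v) (hS : S = t * x ^ q - x) :
    (A ^ (q + 1) * x ^ (q ^ 2 + 1)) ^ q + A ^ (q + 1) * x ^ (q ^ 2 + 1) =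
      A ^ q * (A ^ q ^ 3 * x ^ q ^ 4 * x ^ q ^ 2 + A ^ q * S * x ^ q ^ 2
        - A ^ q ^ 2 * x ^ q ^ 3 * S ^ q + A ^ q ^ 2 * x ^ q ^ 4 * x ^ q ^ 2) := by
  have hA1 : A ^ q = v ^ q ^ 2 - v ^ q := by
    rw [hA, hsub, ← pow_mul]; ring_nf
  have hA2 : A ^ q ^ 2 = v ^ q ^ 3 - v ^ q ^ 2 := by
    have : A ^ q ^ 2 = (A ^ q) ^ q := by rw [← pow_mul]; ring_nf
    rw [this, hA1, hsub, ← pow_mul, ← pow_mul]; ring_nf
  have hA3 : A ^ q ^ 3 = v ^ q ^ 4 - v ^ q ^ 3 := by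
    have : A ^ q ^ 3 = (A ^ q ^ 2) ^ q := by rw [← pow_mul]; ring_nf
    rw [this, hA2, hsub, ← pow_mul, ← pow_mul]; ring_nf
  have hS1 : S ^ q = t ^ q * x ^ q ^ 2 - x ^ q := by
    rw [hS, hsub, mul_pow, ← pow_mul]; ring_nf
  have hS2 : S = x ^ q ^ 4 - t ^ q * x ^ q ^ 3 := by
    rw [hS]; linear_combination -h0
  simp only [mul_pow v x] at h1
  -- `A x = A ^ (q ^ 3) x ^ (q ^ 4) + (A ^ q + A ^ (q ^ 2)) S`
  have e1 : A * x = A ^ q ^ 3 * x ^ q ^ 4 + (A ^ q + A ^ q ^ 2) * S := by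
    have hS3 : t * x ^ q = S + x := by rw [hS]; ring
    have hS4 : t ^ q * x ^ q ^ 3 = x ^ q ^ 4 - S := by rw [hS2]; ring
    rw [hA3, hA2, hA1, hA]
    have h1' : v ^ q ^ 4 * x ^ q ^ 4 - v ^ q ^ 3 * (t ^ q * x ^ q ^ 3) - v ^ q * (t * x ^ q)
        + v * x = 0 := by linear_combination h1
    rw [hS3, hS4] at h1'
    linear_combination -h1'
  have e2 : S * x ^ q ^ 2 = x ^ q ^ 4 * x ^ q ^ 2 - (S ^ q + x ^ q) * x ^ q ^ 3 := by
    rw [hS1, hS2]; ring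
  have e3 : A * x * x ^ q ^ 2 + A ^ q ^ 2 * x ^ q * x ^ q ^ 3 =
      A ^ q ^ 3 * x ^ q ^ 4 * x ^ q ^ 2 + A ^ q * S * x ^ q ^ 2
        - A ^ q ^ 2 * x ^ q ^ 3 * S ^ q + A ^ q ^ 2 * x ^ q ^ 4 * x ^ q ^ 2 := by
    linear_combination x ^ q ^ 2 * e1 + A ^ q ^ 2 * e2
  have e4 : (A ^ (q + 1) * x ^ (q ^ 2 + 1)) ^ q = A ^ q * (A ^ q ^ 2 * x ^ q * x ^ q ^ 3) := by
    rw [mul_pow, ← pow_mul, ← pow_mul]
    have a1 : (q + 1) * q = q + q ^ 2 := by ring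
    have a2 : (q ^ 2 + 1) * q = q + q ^ 3 := by ring
    rw [a1, a2, pow_add, pow_add]
    ring
  have e5 : A ^ (q + 1) * x ^ (q ^ 2 + 1) = A ^ q * (A * x * x ^ q ^ 2) := by
    rw [pow_succ, pow_succ]; ring
  rw [e4, ← e3]
  linear_combination e5

theorem sc12_nn {Q U R : ℤ} (hQ : 0 < Q + 1) (h : (Q + 1) * U = R) (hR : 0 ≤ R) : 0 ≤ U := by
  rw [← h] at hR
  exact (mul_nonneg_iff_of_pos_left hQ).1 hR

/-- the order of `K ^ q + K` -/
theorem sc12_ord {k L : Type} [Field k] [Field L] [Algebra k L] (P : Place k L) (q : ℕ)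
    (hq : 2 ≤ q) (x A S W : L) (a α σ : ℤ) (ha : 0 < a) (hx : P.Ge x a) (hA : P.Ge A α)
    (hS : P.Ge S σ) (hσ : σ = ((q : ℤ) ^ 3 - (q : ℤ) ^ 2 + q) * a)
    (hR : ((q : ℤ) + 1) * α = -((q : ℤ) ^ 2 + 1) * a)
    (hW : W = A ^ q * (A ^ q ^ 3 * x ^ q ^ 4 * x ^ q ^ 2 + A ^ q * S * x ^ q ^ 2
        - A ^ q ^ 2 * x ^ q ^ 3 * S ^ q + A ^ q ^ 2 * x ^ q ^ 4 * x ^ q ^ 2)) :
    P.Ge W (-2 * α) := by
  have hQ : (2 : ℤ) ≤ (q : ℤ) := by exact_mod_cast hq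
  have hQ1 : (0 : ℤ) < (q : ℤ) + 1 := by linarith
  have g1 := sc12_ge_pow P hA q
  have g2 := sc12_ge_pow P hA (q ^ 2)
  have g3 := sc12_ge_pow P hA (q ^ 3)
  have x2 := sc12_ge_pow P hx (q ^ 2)
  have x3 := sc12_ge_pow P hx (q ^ 3)
  have x4 := sc12_ge_pow P hx (q ^ 4)
  have s1 := sc12_ge_pow P hS q
  push_cast at g1 g2 g3 x2 x3 x4 s1
  have p3 : 0 ≤ (q : ℤ) ^ 3 - (q : ℤ) - 2 := by nlinarith [mul_nonneg (sub_nonneg.2 hQ) (sub_nonneg.2 hQ)]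
  have T1 := P.ge_mul (P.ge_mul g3 x4) x2
  have T2 := P.ge_mul (P.ge_mul g1 hS) x2
  have T3 := P.ge_mul (P.ge_mul g2 x3) s1
  have T4 := P.ge_mul (P.ge_mul g2 x4) x2
  generalize (q : ℤ) = Q at *
  subst hσ
  have hB : P.Ge (A ^ q ^ 3 * x ^ q ^ 4 * x ^ q ^ 2 + A ^ q * S * x ^ q ^ 2
        - A ^ q ^ 2 * x ^ q ^ 3 * S ^ q + A ^ q ^ 2 * x ^ q ^ 4 * x ^ q ^ 2) (-2 * α - Q * α) := by
    refine P.ge_add (P.ge_sub (P.ge_add (P.ge_mono T1 ?_) (P.ge_mono T2 ?_)) (P.ge_mono T3 ?_))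
      (P.ge_mono T4 ?_)
    · rw [← sub_nonneg]
      refine sc12_nn hQ1 (R := a * (Q ^ 2 + 1) * (Q - 2) * (Q + 1)) ?_ ?_
      · linear_combination (Q ^ 3 + Q + 2) * hR
      · have := sub_nonneg.2 hQ
        positivity
    · rw [← sub_nonneg]
      refine sc12_nn hQ1 (R := a * (Q ^ 2 + 1) * (Q - 2) * (Q + 1)) ?_ ?_
      · linear_combination (2 * Q + 2) * hR
      · have := sub_nonneg.2 hQ
        positivity
    · rw [← sub_nonneg]
      refine sc12_nn hQ1 (R := a * (Q ^ 2 + 1) * (Q ^ 3 - Q - 2)) ?_ ?_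
      · linear_combination (Q ^ 2 + Q + 2) * hR
      · positivity
    · rw [← sub_nonneg]
      refine sc12_nn hQ1 (R := a * (Q ^ 2 + 1) * (Q ^ 3 - Q - 2)) ?_ ?_
      · linear_combination (Q ^ 2 + Q + 2) * hR
      · positivity
  rw [hW]
  refine P.ge_mono (P.ge_mul g1 hB) (le_of_eq ?_)
  ring

theorem sc12_coord {k F L : Type} [Field k] [Field F] [Field L] [Algebra F k] [Algebra k L]
    (X : Fin 4 → L) (j : Fin 4) :
    ∑ i, cst k F L ((Pi.single j (1 : F) : Fin 4 → F) i) * X i = X j := by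
  rw [Finset.sum_eq_single j]
  · rw [Pi.single_eq_same]
    simp [cst]
  · intro i _ hi
    rw [Pi.single_eq_of_ne hi]
    simp [cst]
  · intro h
    exact absurd (Finset.mem_univ j) h

theorem sc12_ne {k F L : Type} [Field k] [Field F] [Field L] [Algebra F k] [Algebra k L]
    (X : Fin 4 → L) (hind : ∀ c : Fin 4 → F, ∑ i, cst k F L (c i) * X i = 0 → c = 0) (j : Fin 4) :
    X j ≠ 0 := by
  intro h
  have h1 := hind (Pi.single j (1 : F)) (by rw [sc12_coord]; exact h)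
  have h2 := congrFun h1 j
  rw [Pi.single_eq_same] at h2
  exact one_ne_zero h2

theorem sc12_thm : S_SC12 := by
  intro p k F L _ _ _ _ _ _ f q t D X P hp hp2 hchar hf hqf hcard hR hO hD
  have := Fact.mk hp
  have : CharP L p := charP_of_injective_algebraMap (algebraMap k L).injective p
  have hsub : ∀ x y : L, (x - y) ^ q = x ^ q - y ^ q := by
    intro x y; rw [hqf]; exact sub_pow_char_pow x y f
  have hsubk : ∀ x y : L, (x + y) ^ q = x ^ q + y ^ q := by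
    intro x y; rw [hqf]; exact add_pow_char_pow x y p f
  have hq2 : 2 ≤ q := by
    rw [hqf]
    calc 2 ≤ p := hp.two_le
      _ = p ^ 1 := (pow_one p).symm
      _ ≤ p ^ f := Nat.pow_le_pow_right hp.pos hf
  have hQ : (2 : ℤ) ≤ (q : ℤ) := by exact_mod_cast hq2
  have hx0 : X 0 ≠ 0 := sc12_ne X hR.ind 0
  have hx1 : X 1 ≠ 0 := sc12_ne X hR.ind 1
  have hm := hO.mid (Pi.single 1 1) (by simp) (Or.inl (by simp))
  rw [sc12_coord] at hm
  have hs := hO.small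
  have hn := hO.neg
  obtain ⟨x, hxd⟩ : ∃ x, x = X 0 := ⟨_, rfl⟩
  obtain ⟨v, hvd⟩ : ∃ v, v = X 1 / X 0 := ⟨_, rfl⟩
  have hX1 : X 1 = v * x := by rw [hvd, hxd]; field_simp
  have hv0 : v ≠ 0 := by rw [hvd]; exact div_ne_zero hx1 hx0
  have hordv : P.ord v = P.ord (X 1) - P.ord (X 0) := by rw [hvd, P.ord_div hx1 hx0]
  obtain ⟨a, had⟩ : ∃ a, a = P.ord (X 0) := ⟨_, rfl⟩
  obtain ⟨b, hbd⟩ : ∃ b, b = P.ord (X 1) := ⟨_, rfl⟩
  rw [← had] at hs hordv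
  rw [← hbd] at hm hordv
  have hq1 : (0 : ℤ) < (q : ℤ) - 1 := by linarith
  have ha : 0 < a := by
    have : 0 < ((q : ℤ) - 1) * a := by rw [hs]; linarith
    exact (mul_pos_iff_of_pos_left hq1).1 this
  have hvn : (q : ℤ) * ((q : ℤ) + 1) * (b - a) = -((q : ℤ) ^ 2 + 1) * a := by
    linear_combination hm - hs
  have hba : b - a < 0 := by
    by_contra hc
    rw [not_lt] at hc
    have h1 : 0 ≤ (q : ℤ) * ((q : ℤ) + 1) * (b - a) := by positivity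
    rw [hvn] at h1
    have h2 : 0 < ((q : ℤ) ^ 2 + 1) * a := by positivity
    linarith
  -- `A = v ^ q - v`
  obtain ⟨A, hAd⟩ : ∃ A, A = v ^ q - v := ⟨_, rfl⟩
  have hvq : P.ord (v ^ q) = q * (b - a) := by rw [P.ord_pow hv0, hordv]
  have hA : A ≠ 0 ∧ P.ord A = q * (b - a) := by
    have h1 := P.ord_add_of_lt (x := v ^ q) (y := -v) (pow_ne_zero q hv0)
      (Or.inr (by rw [P.ord_neg, hvq, hordv]; nlinarith))
    rw [← sub_eq_add_neg, ← hAd, hvq] at h1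
    exact h1
  obtain ⟨α, hαd⟩ : ∃ α : ℤ, α = q * (b - a) := ⟨_, rfl⟩
  rw [← hαd] at hA hvq
  have hαn : α < 0 := by rw [hαd]; nlinarith
  have hRel : ((q : ℤ) + 1) * α = -((q : ℤ) ^ 2 + 1) * a := by
    rw [hαd]; linear_combination hvn
  -- `K`
  obtain ⟨K, hKd⟩ : ∃ K, K = A ^ (q + 1) * x ^ (q ^ 2 + 1) := ⟨_, rfl⟩
  have hxn : x ≠ 0 := by rw [hxd]; exact hx0
  have hox : P.ord x = a := by rw [hxd, had]
  have hK0 : K ≠ 0 := by
    rw [hKd]; exact mul_ne_zero (pow_ne_zero _ hA.1) (pow_ne_zero _ hxn)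
  have hKo : P.ord K = 0 := by
    rw [hKd, P.ord_mul _ _ (pow_ne_zero _ hA.1) (pow_ne_zero _ hxn), P.ord_pow hA.1, P.ord_pow hxn,
      hA.2, hox]
    push_cast
    linear_combination hRel
  -- `S`
  obtain ⟨S, hSd⟩ : ∃ S, S = t * x ^ q - x := ⟨_, rfl⟩
  have h0 := hR.rel 0
  have h1 := hR.rel 1
  rw [hX1] at h1
  rw [← hxd] at h0
  have ht0 : t ≠ 0 := by
    rintro rfl
    have := hR.tr
    exact this (isAlgebraic_zero)
  have hot : P.ord t = -((q : ℤ) - 1) * a := by linarith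
  have hS : P.Ge S (((q : ℤ) ^ 3 - (q : ℤ) ^ 2 + q) * a) := by
    have e : S = x ^ q ^ 4 - t ^ q * x ^ q ^ 3 := by
      rw [hSd]; linear_combination -h0
    rw [e]
    refine P.ge_sub (Or.inr ?_) (Or.inr ?_)
    · rw [P.ord_pow hxn, hox]
      push_cast
      have h3 : (q : ℤ) ^ 3 - (q : ℤ) ^ 2 + q ≤ (q : ℤ) ^ 4 := by
        have p1 : 0 ≤ (q : ℤ) ^ 3 * ((q : ℤ) - 1) := by positivity
        have p2 : 0 ≤ (q : ℤ) * ((q : ℤ) - 1) := by positivity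
        nlinarith
      exact mul_le_mul_of_nonneg_right h3 ha.le
    · rw [P.ord_mul _ _ (pow_ne_zero _ ht0) (pow_ne_zero _ hxn), P.ord_pow ht0, P.ord_pow hxn, hox,
        hot]
      push_cast
      refine le_of_eq ?_
      ring
  have hid := sc12_id q hsub t x v A S h0 h1 hAd hSd
  rw [← hKd] at hid
  have hKK : P.Ge (K ^ q + K) (-2 * α) :=
    sc12_ord P q hq2 x A S (K ^ q + K) a α _ ha (Or.inr hox.ge) (Or.inr hA.2.ge) hS rfl hRel hid
  -- the residue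
  obtain ⟨c, hc⟩ := P.residue K hK0 hKo.ge
  have hc0 : c ≠ 0 := by
    rintro rfl
    rw [map_zero, sub_zero] at hc
    rcases hc with hc | hc
    · exact hK0 hc
    · rw [hKo] at hc; exact lt_irrefl _ hc
  obtain ⟨κ', hκ'⟩ : ∃ z, z = algebraMap k L c := ⟨_, rfl⟩
  have hκ0 : κ' ≠ 0 := by
    rw [hκ']; exact (map_ne_zero _).2 hc0
  have hκo : P.ord κ' = 0 := by rw [hκ']; exact P.ord_const c hc0
  rw [← hκ'] at hc
  obtain ⟨y, hyd⟩ : ∃ y, y = K - κ' := ⟨_, rfl⟩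
  have hy1 : P.Ge y 1 := by
    rcases hc with hc | hc
    · exact Or.inl (by rw [hyd, hc, sub_self])
    · exact Or.inr (by rw [hyd]; omega)
  have hyq : P.Ge (y ^ q) 1 := by
    refine P.ge_mono (sc12_ge_pow P hy1 q) ?_
    linarith
  have hsum : y + y ^ q + (κ' ^ q + κ') = K ^ q + K := by
    rw [hyd, hsub]; ring
  have hcc : κ' ^ q + κ' = 0 := by
    have h2 : P.Ge (κ' ^ q + κ') 1 := by
      have h3 : κ' ^ q + κ' = (K ^ q + K) - (y + y ^ q) := by rw [← hsum]; ring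
      rw [h3]
      exact P.ge_sub (P.ge_mono hKK (by linarith)) (P.ge_add hy1 hyq)
    have h4 : κ' ^ q + κ' = algebraMap k L (c ^ q + c) := by rw [hκ', map_add, map_pow]
    by_contra hne
    have h5 : c ^ q + c ≠ 0 := by
      intro h6
      rw [h4, h6, map_zero] at hne
      exact hne rfl
    have h7 := h2.resolve_left hne
    rw [h4, P.ord_const _ h5] at h7
    omega
  have hy : P.Ge y (-2 * α) := by
    by_cases hy0 : y = 0
    · exact Or.inl hy0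
    have hyo : 1 ≤ P.ord y := hy1.resolve_left hy0
    have h2 := P.ord_add_of_lt (x := y) (y := y ^ q) hy0
      (Or.inr (by rw [P.ord_pow hy0]; nlinarith))
    have h3 : y + y ^ q = K ^ q + K := by rw [← hsum, hcc, add_zero]
    rw [h3] at h2
    exact Or.inr (by rw [← h2.2]; exact hKK.resolve_left h2.1)
  -- the quotients
  have hDK : D ^ (q + 1) = K * x ^ (2 * q) := by
    have hD1 : D = x ^ (q + 1) * A := by
      rw [hD, hX1, ← hxd, hAd, mul_pow, pow_succ]; ring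
    rw [hD1, mul_pow, ← pow_mul, hKd]
    have e : (q + 1) * (q + 1) = (q ^ 2 + 1) + 2 * q := by ring
    rw [e, pow_add]; ring
  have hq1' : X 1 ^ (2 * q) / D ^ (q + 1) = v ^ (2 * q) / K := by
    rw [hDK, hX1, mul_pow, mul_div_mul_right _ _ (pow_ne_zero _ hxn)]
  have hq2' : X 0 ^ q * X 1 ^ q / D ^ (q + 1) = v ^ q / K := by
    have e : X 0 ^ q * X 1 ^ q = v ^ q * x ^ (2 * q) := by
      rw [hX1, ← hxd, mul_pow, two_mul, pow_add]; ring
    rw [e, hDK, mul_div_mul_right _ _ (pow_ne_zero _ hxn)]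
  have hv2 : P.ord (v ^ (2 * q)) = 2 * α := by
    rw [P.ord_pow hv0, hordv, hαd]; push_cast; ring
  have key : ∀ (z : L) (n : ℤ), P.Ge z n → 0 ≤ n - 2 * α →
      P.Ge (z / K - algebraMap k L c⁻¹ * z) 0 := by
    intro z n hz hnn
    have e : z / K - algebraMap k L c⁻¹ * z = -(z * y * (K⁻¹ * κ'⁻¹)) := by
      rw [map_inv₀, ← hκ', hyd]
      field_simp
      ring
    rw [e]
    refine P.ge_neg (P.ge_mono (P.ge_mul (P.ge_mul hz hy) (P.ge_mul (P.ge_ord K⁻¹)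
      (P.ge_ord κ'⁻¹))) ?_)
    rw [P.ord_inv hK0, P.ord_inv hκ0, hKo, hκo]
    linarith
  refine ⟨?_, c⁻¹, inv_ne_zero hc0, ?_, ?_⟩
  · rw [← hvd, hordv, hot]
    linear_combination ((q : ℤ) - 1) * hvn
  · rw [hq1', ← hvd]
    exact key _ _ (Or.inr hv2.ge) (by linarith)
  · rw [hq2', ← hvd]
    exact key _ _ (Or.inr hvq.ge) (by linarith)

end Pool.CND
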